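import Mathlib

namespace Pool.Agent.Results.MP_06621a_co.Pal
open Finset

/-- the number of distinct non-empty palindromic scattered subwords of w. -/
noncomputable def SP {α : Type} (w : List α) : ℕ :=
  {u : List α | u.Sublist w ∧ u ≠ [] ∧ u.reverse = u}.ncard

/-- the conjectured maximum. -/
def M (n : ℕ) : ℤ := if n % 2 = 1 then 3 * 2 ^ ((n + 1) / 2 - 1) - 2 else 2 ^ (n / 2 + 1) - 2

def g : ℕ → ℕ
  | 0 => 2
  | 1 => 3
  | (m + 2) => 2 * g m

lemma g_eq : ∀ n, (g n : ℤ) = M n + 2
  | 0 => by simp [g, M]
  | 1 => by simp [g, M]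
  | (m + 2) => by
    have ih := g_eq m
    simp only [g, M] at *
    push_cast
    rw [ih]
    have h1 : (m + 2) % 2 = m % 2 := by omega
    rw [h1]
    split_ifs with h
    · have e1 : (m + 2 + 1) / 2 - 1 = ((m + 1) / 2 - 1) + 1 := by omega
      rw [e1, pow_succ]; ring
    · have e1 : (m + 2) / 2 + 1 = (m / 2 + 1) + 1 := by omega
      rw [e1, pow_succ]; ring

lemma g_step : ∀ m, 4 * g m ≤ 3 * g (m + 1)
  | 0 => by simp [g]
  | 1 => by simp [g]
  | (m + 2) => by
    have := g_step m
    show 4 * (2 * g m) ≤ 3 * (2 * g (m + 1))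
    omega

lemma g_mono : Monotone g := monotone_nat_of_le_succ (fun m => by have := g_step m; omega)

lemma g_ge : ∀ m, m + 2 ≤ g m ∧ (3 ≤ m → m + 3 ≤ g m)
  | 0 => by simp [g]
  | 1 => by simp [g]
  | (m + 2) => by
    have := g_ge m
    show m + 2 + 2 ≤ 2 * g m ∧ (3 ≤ m + 2 → m + 2 + 3 ≤ 2 * g m)
    omega

lemma g_add (m s : ℕ) : g (m + 2 * s) = 2 ^ s * g m := by
  induction s with
  | zero => simp
  | succ s ih =>
    have : m + 2 * (s + 1) = (m + 2 * s) + 2 := by ring
    rw [this, g, ih, pow_succ]; ring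

lemma g_base (m l : ℕ) : (2 * g m : ℚ) ≤ g (m + l) * ((1 / 2) ^ l + 1) := by
  match l with
  | 0 => simp; ring_nf; rfl
  | 1 =>
    have : ((4 * g m : ℕ) : ℚ) ≤ ((3 * g (m + 1) : ℕ) : ℚ) := by exact_mod_cast g_step m
    push_cast at this
    linarith
  | (l + 2) =>
    have h1 : g (m + 2) ≤ g (m + (l + 2)) := g_mono (by omega)
    have h2 : ((2 * g m : ℕ) : ℚ) ≤ (g (m + (l + 2)) : ℚ) := by exact_mod_cast h1
    push_cast at h2
    have h3 : (0 : ℚ) ≤ g (m + (l + 2)) * (1 / 2) ^ (l + 2) := by positivity
    linarith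

lemma g_amgm (m : ℕ) : ∀ l r : ℕ, (2 * g m : ℚ) ≤ g (m + l + r) * ((1 / 2) ^ l + (1 / 2) ^ r)
  | l, 0 => by simpa using g_base m l
  | 0, r + 1 => by
    have := g_base m (r + 1)
    simp only [add_zero, pow_zero]
    linarith
  | l + 1, r + 1 => by
    have ih := g_amgm m l r
    have e : m + (l + 1) + (r + 1) = (m + l + r) + 2 := by ring
    rw [e, g]
    push_cast
    rw [pow_succ, pow_succ]
    linarith

lemma geo (T : Finset ℕ) : ∑ i ∈ T, (1 / 2 : ℚ) ^ (i + 1) ≤ 1 - (1 / 2) ^ T.card := by
  induction T using Finset.induction_on_max with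
  | empty => simp
  | insert a T ha ih =>
    have hna : a ∉ T := fun h => lt_irrefl _ (ha a h)
    rw [sum_insert hna, card_insert_of_notMem hna]
    have h1 : T.card ≤ a := by
      have : T ⊆ range a := fun x hx => mem_range.mpr (ha x hx)
      simpa using card_le_card this
    have h2 : (1 / 2 : ℚ) ^ (a + 1) ≤ (1 / 2) ^ (T.card + 1) :=
      pow_le_pow_of_le_one (by norm_num) (by norm_num) (by omega)
    rw [pow_succ (1 / 2 : ℚ) T.card] at *
    linarith

variable {α : Type} [DecidableEq α]

def pal (w : List α) : Finset (List α) :=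
  w.sublists.toFinset.filter (fun u => u ≠ [] ∧ u.reverse = u)

lemma mem_pal {w u : List α} : u ∈ pal w ↔ u.Sublist w ∧ u ≠ [] ∧ u.reverse = u := by
  simp [pal]

lemma SP_eq (w : List α) : SP w = (pal w).card := by
  rw [SP, ← Set.ncard_coe_finset]
  congr 1
  ext u
  simp [mem_pal]

lemma sub_left {c : α} {t z : List α} : ∀ {x : List α}, c ∉ x → (c :: t).Sublist (x ++ c :: z) →
    t.Sublist z
  | [], _, h => by simpa using h
  | a :: x, hx, h => by
    have hca : c ≠ a := fun e => hx (by simp [e])
    have hx' : c ∉ x := fun e => hx (by simp [e])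
    rw [List.cons_append] at h
    cases h with
    | cons _ h => exact sub_left hx' h
    | cons_cons _ h => exact absurd rfl hca

lemma sub_right {c : α} {t z y : List α} (hy : c ∉ y) (h : (t ++ [c]).Sublist (z ++ c :: y)) :
    t.Sublist z := by
  have h1 := h.reverse
  simp only [List.reverse_append, List.reverse_cons, List.reverse_nil, List.nil_append,
    List.singleton_append, List.append_assoc] at h1
  have h2 := sub_left (x := y.reverse) (by simpa using hy) h1
  exact List.reverse_sublist.mp h2

lemma pal_shape {c : α} {u : List α} (h1 : u.reverse = u) (h2 : u.head? = some c) :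
    u = [c] ∨ ∃ v, u = c :: (v ++ [c]) ∧ v.reverse = v := by
  match u, h1, h2 with
  | a :: t, h1, h2 =>
    simp at h2
    subst h2
    rcases List.eq_nil_or_concat t with rfl | ⟨v, b, rfl⟩
    · left; rfl
    · right
      simp only [List.concat_eq_append, List.reverse_cons, List.reverse_append,
        List.reverse_nil, List.nil_append, List.singleton_append, List.cons_append,
        List.cons.injEq] at h1
      obtain ⟨rfl, h1⟩ := h1
      refine ⟨v, by simp, ?_⟩
      exact List.append_cancel_right h1

lemma fiber_single {c : α} {w : List α} (hc : w.count c ≤ 1) :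
    ((pal w).filter (fun u => u.head? = some c)).card ≤ 1 := by
  rw [← card_singleton ([c] : List α)]
  apply card_le_card
  intro u hu
  rw [mem_filter, mem_pal] at hu
  rcases pal_shape hu.1.2.2 hu.2 with rfl | ⟨v, rfl, -⟩
  · simp
  · have := hu.1.1.count_le c
    simp at this
    omega

lemma fiber_double {c : α} {x z y : List α} (hx : c ∉ x) (hy : c ∉ y) :
    ((pal (x ++ c :: (z ++ c :: y))).filter (fun u => u.head? = some c)).card
      ≤ (pal z).card + 2 := by
  have : (pal (x ++ c :: (z ++ c :: y))).filter (fun u => u.head? = some c) ⊆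
      insert [c] (insert [c, c] ((pal z).image (fun v => c :: (v ++ [c])))) := by
    intro u hu
    rw [mem_filter, mem_pal] at hu
    rcases pal_shape hu.1.2.2 hu.2 with rfl | ⟨v, rfl, hv⟩
    · simp
    · have h1 := sub_right hy (sub_left hx hu.1.1)
      by_cases hv0 : v = []
      · subst hv0; simp
      · apply mem_insert_of_mem
        apply mem_insert_of_mem
        exact mem_image.mpr ⟨v, mem_pal.mpr ⟨h1, hv0, hv⟩, rfl⟩
  refine (card_le_card this).trans ?_
  refine (card_insert_le _ _).trans ?_
  have h2 := card_insert_le [c, c] ((pal z).image (fun v => c :: (v ++ [c])))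
  have h3 : ((pal z).image (fun v => c :: (v ++ [c]))).card ≤ (pal z).card := card_image_le
  omega

lemma first_split {c : α} : ∀ {w : List α}, c ∈ w → ∃ x z, w = x ++ c :: z ∧ c ∉ x
  | a :: w, h => by
    by_cases e : c = a
    · exact ⟨[], w, by simp [e], by simp⟩
    · have h' : c ∈ w := by simpa [e] using h
      obtain ⟨x, z, rfl, hx⟩ := first_split h'
      exact ⟨a :: x, z, by simp, by simp [e, hx]⟩

lemma double_split {c : α} {w : List α} (h : 2 ≤ w.count c) :
    ∃ x z y, w = x ++ c :: (z ++ c :: y) ∧ c ∉ x ∧ c ∉ y ∧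
      w.idxOf c = x.length ∧ w.reverse.idxOf c = y.length := by
  obtain ⟨x, t, rfl, hx⟩ := first_split (c := c) (w := w) (List.count_pos_iff.mp (by omega))
  have h1 : c ∈ t.reverse := by
    rw [List.mem_reverse]
    apply List.count_pos_iff.mp
    rw [List.count_append, List.count_eq_zero_of_not_mem hx, List.count_cons_self] at h
    omega
  obtain ⟨y, z, e, hy⟩ := first_split h1
  have e2 : t = z.reverse ++ c :: y.reverse := by
    have := congrArg List.reverse e
    simpa using this
  subst e2
  refine ⟨x, z.reverse, y.reverse, rfl, hx, by simpa using hy, ?_, ?_⟩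
  · rw [List.idxOf_append_of_notMem hx]; simp
  · simp only [List.reverse_append, List.reverse_cons, List.reverse_reverse, List.append_assoc,
      List.singleton_append, List.length_reverse]
    rw [List.idxOf_append_of_notMem hy]; simp

lemma geo_idx (w : List α) (S : Finset α) (hS : ∀ c ∈ S, c ∈ w) :
    ∑ c ∈ S, (1 / 2 : ℚ) ^ (w.idxOf c + 1) ≤ 1 - (1 / 2) ^ S.card := by
  have hinj : Set.InjOn (fun c => w.idxOf c) S := fun a ha b _ e =>
    (List.idxOf_inj (hS a ha)).mp e
  have := geo (S.image (fun c => w.idxOf c))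
  rw [sum_image hinj, card_image_of_injOn hinj] at this
  exact this

lemma main : ∀ (n : ℕ) (w : List α), w.length = n →
    ∃ s m : ℕ, n = m + 2 * s ∧ s ≤ w.toFinset.card ∧ w.toFinset.card ≤ s + m ∧
      (pal w).card + g m + s ≤ g n + w.toFinset.card := by
  intro n
  induction n using Nat.strong_induction_on with
  | _ n ih =>
  intro w hw
  have ih2 : ∀ z : List α, z.length < n → (pal z).card + 2 ≤ g z.length := by
    intro z hz
    obtain ⟨s, m, h1, h2, h3, h4⟩ := ih z.length hz z rfl
    have := (g_ge m).1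
    omega
  set A := w.toFinset with hA
  set S := A.filter (fun c => 2 ≤ w.count c) with hS
  set T := A.filter (fun c => ¬ 2 ≤ w.count c) with hT
  have hST : S.card + T.card = A.card := card_filter_add_card_filter_not _
  have hlen : 2 * S.card + T.card ≤ n := by
    rw [← hw, ← List.sum_toFinset_count_eq_length, ← hA,
      ← sum_filter_add_sum_filter_not A (fun c => 2 ≤ w.count c)]
    have a1 : 2 * S.card ≤ ∑ c ∈ S, w.count c := by
      rw [mul_comm, ← smul_eq_mul]
      exact card_nsmul_le_sum _ _ _ (fun c hc => (mem_filter.mp hc).2)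
    have a2 : T.card ≤ ∑ c ∈ T, w.count c := by
      have := card_nsmul_le_sum T (fun c => w.count c) 1 (fun c hc =>
        List.count_pos_iff.mpr (List.mem_toFinset.mp (mem_filter.mp hc).1))
      simpa using this
    exact add_le_add a1 a2
  have hcov : (pal w).card ≤ ∑ c ∈ A, ((pal w).filter (fun u => u.head? = some c)).card := by
    refine le_trans (card_le_card ?_) card_biUnion_le
    intro u hu
    have hu' := mem_pal.mp hu
    match u, hu, hu' with
    | [], _, hu' => exact absurd rfl hu'.2.1
    | a :: t, hu, hu' =>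
      exact mem_biUnion.mpr ⟨a, List.mem_toFinset.mpr (hu'.1.subset (by simp)),
        mem_filter.mpr ⟨hu, by simp⟩⟩
  rw [← sum_filter_add_sum_filter_not A (fun c => 2 ≤ w.count c), ← hS, ← hT] at hcov
  have b1 : ∑ c ∈ T, ((pal w).filter (fun u => u.head? = some c)).card ≤ T.card := by
    have := sum_le_card_nsmul T (fun c => ((pal w).filter (fun u => u.head? = some c)).card) 1
      (fun c hc => fiber_single (by have := (mem_filter.mp hc).2; omega))
    simpa using this
  have b2 : ∀ c ∈ S, (2 * (((pal w).filter (fun u => u.head? = some c)).card : ℚ)) ≤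
      g n * ((1 / 2) ^ (w.idxOf c + 1) + (1 / 2) ^ (w.reverse.idxOf c + 1)) := by
    intro c hc
    obtain ⟨x, z, y, e, hx, hy, i1, i2⟩ := double_split (mem_filter.mp hc).2
    have hl : n = z.length + (x.length + 1) + (y.length + 1) := by
      rw [← hw, e]; simp; ring
    have c1 := fiber_double (z := z) hx hy
    rw [← e] at c1
    have c2 := ih2 z (by omega)
    have c3 := g_amgm z.length (x.length + 1) (y.length + 1)
    rw [← hl] at c3
    rw [i1, i2]
    have c4 : (((pal w).filter (fun u => u.head? = some c)).card : ℚ) ≤ g z.length := by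
      exact_mod_cast c1.trans c2
    linarith
  have b3 := sum_le_sum b2
  rw [← mul_sum, ← mul_sum, sum_add_distrib] at b3
  have b4 := geo_idx w S (fun c hc => List.mem_toFinset.mp (mem_filter.mp hc).1)
  have b5 := geo_idx w.reverse S (fun c hc =>
    List.mem_reverse.mpr (List.mem_toFinset.mp (mem_filter.mp hc).1))
  refine ⟨S.card, n - 2 * S.card, by omega, by omega, by omega, ?_⟩
  have e1 : g n = 2 ^ S.card * g (n - 2 * S.card) := by
    rw [← g_add]; congr 1; omega
  have e2 : (g n : ℚ) * (1 / 2) ^ S.card = g (n - 2 * S.card) := by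
    rw [e1]; push_cast; rw [one_div, inv_pow]; field_simp
  have b6 : (g n : ℚ) * (∑ c ∈ S, (1 / 2 : ℚ) ^ (w.idxOf c + 1) +
      ∑ c ∈ S, (1 / 2 : ℚ) ^ (w.reverse.idxOf c + 1)) ≤ g n * (2 * (1 - (1 / 2) ^ S.card)) :=
    mul_le_mul_of_nonneg_left (by linarith) (by positivity)
  have b7 : ((∑ c ∈ S, ((pal w).filter (fun u => u.head? = some c)).card : ℕ) : ℚ)
      + g (n - 2 * S.card) ≤ g n := by
    push_cast
    linarith
  have b8 : ∑ c ∈ S, ((pal w).filter (fun u => u.head? = some c)).card
      + g (n - 2 * S.card) ≤ g n := by exact_mod_cast b7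
  omega

lemma wrap {a : α} {w : List α} (ha : a ∉ w) :
    2 * (pal w).card + 2 ≤ (pal (a :: (w ++ [a]))).card := by
  have hinj : Function.Injective (fun v : List α => a :: (v ++ [a])) := fun u v e => by
    simpa using e
  have hsub : insert [a] ((insert [] (pal w)).image (fun v => a :: (v ++ [a]))) ∪ pal w ⊆
      pal (a :: (w ++ [a])) := by
    intro u hu
    rw [mem_pal]
    rcases mem_union.mp hu with hu | hu
    · rcases mem_insert.mp hu with rfl | hu
      · simp
      · obtain ⟨v, hv, rfl⟩ := mem_image.mp hu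
        rcases mem_insert.mp hv with rfl | hv
        · simp
        · have := mem_pal.mp hv
          refine ⟨List.Sublist.cons_cons _ (this.1.append_right _), by simp, ?_⟩
          simp [this.2.2]
    · have := mem_pal.mp hu
      exact ⟨List.Sublist.cons _ (this.1.trans (List.sublist_append_left _ _)), this.2⟩
  have hd : Disjoint (insert [a] ((insert [] (pal w)).image (fun v => a :: (v ++ [a])))) (pal w) := by
    rw [disjoint_left]
    intro u hu hu2
    apply ha
    apply (mem_pal.mp hu2).1.subset
    rcases mem_insert.mp hu with rfl | hu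
    · simp
    · obtain ⟨v, -, rfl⟩ := mem_image.mp hu
      simp
  have h1 : [a] ∉ (insert [] (pal w)).image (fun v => a :: (v ++ [a])) := by simp
  have h2 : ([] : List α) ∉ pal w := by simp [mem_pal]
  have := card_le_card hsub
  rw [card_union_of_disjoint hd, card_insert_of_notMem h1, card_image_of_injective _ hinj,
    card_insert_of_notMem h2] at this
  omega

lemma attain : ∀ n : ℕ, ∃ w : List ℕ, w.length = n ∧ (∀ a ∈ w, a ≤ n) ∧ g n ≤ (pal w).card + 2
  | 0 => ⟨[], rfl, by simp, by simp [g]⟩
  | 1 => ⟨[0], rfl, by simp, by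
    have : 0 < (pal [0]).card := card_pos.mpr ⟨[0], by simp [mem_pal]⟩
    simp only [g]; omega⟩
  | (n + 2) => by
    obtain ⟨w, h1, h2, h3⟩ := attain n
    have ha : n + 2 ∉ w := fun h => by have := h2 _ h; omega
    refine ⟨(n + 2) :: (w ++ [n + 2]), by simp [h1], ?_, ?_⟩
    · intro a h
      simp only [List.mem_cons, List.mem_append, List.not_mem_nil, or_false] at h
      rcases h with rfl | h | rfl
      · rfl
      · have := h2 _ h; omega
      · rfl
    · have := wrap ha
      simp only [g]; omega

theorem result (n : ℕ) :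
    (∃ w : List ℕ, w.length = n ∧ (SP w : ℤ) = M n) ∧
    ∀ (β : Type) (w : List β), w.length = n → (SP w : ℤ) ≤ M n ∧
      ((SP w : ℤ) = M n →
        (Odd n → {c | c ∈ w}.ncard = (n + 1) / 2) ∧
        (Even n → {c | c ∈ w}.ncard = n / 2 ∨ {c | c ∈ w}.ncard = n / 2 + 1)) := by
  have hg := g_eq n
  constructor
  · obtain ⟨w, h1, -, h3⟩ := attain n
    obtain ⟨s, m, a1, a2, a3, a4⟩ := main n w h1
    have := (g_ge m).1
    refine ⟨w, h1, ?_⟩
    rw [SP_eq]
    omega
  · intro β w hw
    classical
    obtain ⟨s, m, a1, a2, a3, a4⟩ := main n w hw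
    have := g_ge m
    have e : {c | c ∈ w}.ncard = w.toFinset.card := by
      rw [← Set.ncard_coe_finset]; congr 1; ext c; simp
    rw [SP_eq, e]
    refine ⟨by omega, fun h => ⟨fun ho => ?_, fun he => ?_⟩⟩
    · obtain ⟨k, hk⟩ := ho
      omega
    · obtain ⟨k, hk⟩ := he
      omega

end Pool.Agent.Results.MP_06621a_co.Pal
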